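import Pool.Agent.Q269.GT.Stm3

/-!
# Job FLD of project GT: a quadratic extension of the constants of a rational function field
-/

set_option autoImplicit false
set_option linter.all false

namespace Pool.Agent.Q299.GT

open Polynomial Module
open Pool.Agent.Q269.GT

theorem quad_aut (k₁ k₂ : Type) [Field k₁] [Finite k₁] [Field k₂] [Finite k₂] [Algebra k₁ k₂]
    (h : finrank k₁ k₂ = 2) : ∃ τ : k₂ ≃ₐ[k₁] k₂, (∀ x, τ (τ x) = x) ∧
      ∀ x, τ x = x → ∃ y, algebraMap k₁ k₂ y = x := by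
  haveI : FiniteDimensional k₁ k₂ := FiniteDimensional.of_finrank_pos (by omega)
  have hc : Nat.card (k₂ ≃ₐ[k₁] k₂) = 2 := by rw [IsGalois.card_aut_eq_finrank, h]
  obtain ⟨τ, hτ, huniq⟩ := (Nat.card_eq_two_iff' (1 : k₂ ≃ₐ[k₁] k₂)).1 hc
  refine ⟨τ, fun x => ?_, fun x hx => ?_⟩
  · have h1 : τ ^ 2 = 1 := by rw [← hc]; exact pow_card_eq_one'
    have h2 := congrArg (fun e : k₂ ≃ₐ[k₁] k₂ => e x) h1
    simpa only [pow_two, AlgEquiv.mul_apply, AlgEquiv.one_apply] using h2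
  · have h1 : x ∈ Set.range (algebraMap k₁ k₂) := by
      rw [IsGalois.mem_range_algebraMap_iff_fixed]
      intro e
      by_cases he : e = 1
      · rw [he, AlgEquiv.one_apply]
      · rw [huniq e he, hx]
    exact h1

theorem sqrt_ext (k₁ k₂ : Type) [Field k₁] [Finite k₁] [Field k₂] [Finite k₂] [Algebra k₁ k₂]
    (hk : ringChar k₁ ≠ 2) (h : finrank k₁ k₂ = 2) (g : k₁) : ∃ s : k₂, s ^ 2 = algebraMap k₁ k₂ g := by
  by_cases hg : g = 0
  · exact ⟨0, by rw [hg, map_zero, zero_pow two_ne_zero]⟩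
  classical
  haveI := Fintype.ofFinite k₁
  haveI := Fintype.ofFinite k₂
  haveI : FiniteDimensional k₁ k₂ := FiniteDimensional.of_finrank_pos (by omega)
  have hk2 : ringChar k₂ ≠ 2 := by rwa [← Algebra.ringChar_eq k₁ k₂]
  have hc : Fintype.card k₂ = Fintype.card k₁ ^ 2 := by
    rw [← h]
    exact Module.card_eq_pow_finrank
  have hodd := FiniteField.odd_card_of_char_ne_two hk
  have hsq : IsSquare (algebraMap k₁ k₂ g) := by
    rw [FiniteField.isSquare_iff hk2 ((_root_.map_ne_zero _).2 hg), hc]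
    obtain ⟨m, hm⟩ : ∃ m, Fintype.card k₁ = 2 * m + 1 := by
      exact ⟨Fintype.card k₁ / 2, by omega⟩
    have e1 : Fintype.card k₁ ^ 2 / 2 = m * (2 * (m + 1)) := by
      rw [hm, show (2 * m + 1) ^ 2 = 2 * (m * (2 * (m + 1))) + 1 by ring]
      omega
    have e2 : Fintype.card k₁ / 2 = m := by omega
    rw [e1, pow_mul, ← map_pow, ← map_pow, pow_mul]
    rcases FiniteField.pow_dichotomy hk hg with h1 | h1
    · rw [e2] at h1
      rw [h1, one_pow, one_pow, map_one]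
    · rw [e2] at h1
      rw [h1, neg_one_sq, one_pow, map_one]
  obtain ⟨s, hs⟩ := hsq
  exact ⟨s, by rw [hs, pow_two]⟩

/-- JOB GT-FLD -/
theorem t_FLD : S_FLD := by
  intro k₁ k₂ K₁ K₂ _ _ _ _ _ _ _ _ _ _ _ hk h
  obtain ⟨τ, hττ, hτ⟩ := quad_aut k₁ k₂ h
  obtain ⟨g, hg⟩ := FiniteField.exists_nonsquare hk
  obtain ⟨s, hs⟩ := sqrt_ext k₁ k₂ hk h g
  have hτs : τ s = -s := by
    have h1 : (τ s) ^ 2 = s ^ 2 := by rw [← map_pow, hs, τ.commutes]
    rcases sq_eq_sq_iff_eq_or_eq_neg.1 h1 with h2 | h2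
    · exfalso
      obtain ⟨y, hy⟩ := hτ s h2
      apply hg
      refine ⟨y, ?_⟩
      apply (algebraMap k₁ k₂).injective
      rw [← hs, ← hy, map_mul, pow_two]
    · exact h2
  have hmi : Function.Injective ((algebraMap k₂[X] K₂).comp (mapRingHom (algebraMap k₁ k₂))) := by
    rw [RingHom.coe_comp, coe_mapRingHom]
    exact (IsFractionRing.injective k₂[X] K₂).comp
      (Polynomial.map_injective _ (algebraMap k₁ k₂).injective)
  obtain ⟨ι, hι⟩ : ∃ ι : K₁ →+* K₂, ∀ p : k₁[X], ι (algebraMap k₁[X] K₁ p) =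
      algebraMap k₂[X] K₂ (p.map (algebraMap k₁ k₂)) :=
    ⟨IsFractionRing.lift hmi, fun p => IsFractionRing.lift_algebraMap hmi p⟩
  obtain ⟨σ, hσ⟩ : ∃ σ : K₂ ≃+* K₂, ∀ p : k₂[X], σ (algebraMap k₂[X] K₂ p) =
      algebraMap k₂[X] K₂ (p.map (τ : k₂ →+* k₂)) :=
    ⟨IsFractionRing.ringEquivOfRingEquiv (Polynomial.mapEquiv (τ : k₂ ≃+* k₂)), fun p =>
      IsFractionRing.ringEquivOfRingEquiv_algebraMap _ p⟩
  have hτC : ∀ p : k₁[X], (p.map (algebraMap k₁ k₂)).map (τ : k₂ →+* k₂) =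
      p.map (algebraMap k₁ k₂) := by
    intro p
    rw [Polynomial.map_map]
    congr 1
    ext x
    exact τ.commutes x
  have hττp : ∀ p : k₂[X], (p.map (τ : k₂ →+* k₂)).map (τ : k₂ →+* k₂) = p := by
    intro p
    rw [Polynomial.map_map]
    have : (τ : k₂ →+* k₂).comp (τ : k₂ →+* k₂) = RingHom.id k₂ := RingHom.ext fun x => hττ x
    rw [this, Polynomial.map_id]
  have hdesc : ∀ p : k₂[X], p.map (τ : k₂ →+* k₂) = p → ∃ q : k₁[X], q.map (algebraMap k₁ k₂) = p := by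
    intro p hp
    have h1 : p ∈ lifts (algebraMap k₁ k₂) := by
      rw [lifts_iff_coeff_lifts]
      intro n
      apply hτ
      have := congrArg (fun q => q.coeff n) hp
      simp only [coeff_map] at this
      exact this
    exact (mem_lifts p).1 h1
  have hσι : ∀ y, σ (ι y) = ι y := by
    intro y
    obtain ⟨a, b, -, rfl⟩ := IsFractionRing.div_surjective k₁[X] y
    rw [map_div₀, map_div₀, hι, hι, hσ, hσ, hτC, hτC]
  have hσσ : ∀ x, σ (σ x) = x := by
    intro x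
    obtain ⟨a, b, -, rfl⟩ := IsFractionRing.div_surjective k₂[X] x
    rw [map_div₀, map_div₀, hσ, hσ, hσ, hσ, hττp, hττp]
  have hfix : ∀ x, σ x = x → ∃ y, ι y = x := by
    intro x hx
    obtain ⟨a, b, hb, hab⟩ := IsFractionRing.div_surjective k₂[X] x
    have hinj := IsFractionRing.injective k₂[X] K₂
    have hb0 : b ≠ 0 := nonZeroDivisors.ne_zero hb
    have hbm : b.map (τ : k₂ →+* k₂) ≠ 0 := by
      rw [Ne, Polynomial.map_eq_zero]
      exact hb0
    obtain ⟨n, hn⟩ := hdesc (b * b.map (τ : k₂ →+* k₂)) (by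
      rw [Polynomial.map_mul, hττp, mul_comm])
    have hxn : x * algebraMap k₂[X] K₂ (b * b.map (τ : k₂ →+* k₂)) =
        algebraMap k₂[X] K₂ (a * b.map (τ : k₂ →+* k₂)) := by
      rw [← hab, map_mul, map_mul, ← mul_assoc, div_mul_cancel₀]
      exact (map_ne_zero_iff _ hinj).2 hb0
    obtain ⟨m, hm⟩ := hdesc (a * b.map (τ : k₂ →+* k₂)) (by
      apply hinj
      rw [← hσ, ← hxn, map_mul, hx, hσ, Polynomial.map_mul, hττp, mul_comm b])
    refine ⟨algebraMap k₁[X] K₁ m / algebraMap k₁[X] K₁ n, ?_⟩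
    rw [map_div₀, hι, hι, hm, hn, ← hxn, mul_div_cancel_right₀]
    exact (map_ne_zero_iff _ hinj).2 (mul_ne_zero hb0 hbm)
  letI alg : Algebra K₁ K₂ := ι.toAlgebra
  refine ⟨alg, AlgEquiv.ofRingEquiv (f := σ) hσι, g, s, hι, hfix, hσσ, hg, hs, ?_⟩
  show σ (algebraMap k₂[X] K₂ (C s)) = _
  rw [hσ, map_C]
  show algebraMap k₂[X] K₂ (C (τ s)) = _
  rw [hτs, C_neg, map_neg]

end Pool.Agent.Q299.GT
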