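import Pool.Agent.Q269.GT.Stm3

/-!
# Jobs GEN and DSQ of project GT: descent of divisor classes along a quadratic extension
-/

set_option autoImplicit false
set_option linter.all false

namespace Pool.Agent.Q299.GT

open Polynomial Module
open Pool.Agent.Y713.SE Pool.Agent.Q269.GT

/-- JOB GT-GEN -/
theorem t_GEN : S_GEN := by
  intro A B _ _ _ _ _ _ φ hφ θ hθθ hθφ hfix s t hst hs h2 x
  obtain ⟨I, hI, rfl⟩ := exists_cl x
  have hIθ : I.map (θ : A →+* A) ≠ ⊥ := map_ne _ θ.injective hI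
  obtain ⟨M, hM⟩ : ∃ M, M = I * I.map (θ : A →+* A) := ⟨_, rfl⟩
  have hM0 : M ≠ ⊥ := by
    rw [hM, ← Ideal.zero_eq_bot]
    rw [← Ideal.zero_eq_bot] at hI hIθ
    exact mul_ne_zero hI hIθ
  have hMθ : M.map (θ : A →+* A) = M := by
    rw [hM, Ideal.map_mul, Ideal.map_map]
    have e : (θ : A →+* A).comp (θ : A →+* A) = RingHom.id A := RingHom.ext fun x => hθθ x
    rw [e, Ideal.map_id, mul_comm]
  have hmem : ∀ m ∈ M, θ m ∈ M := fun m hm => by
    rw [← hMθ]
    exact Ideal.mem_map_of_mem (θ : A →+* A) hm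
  obtain ⟨h, hh⟩ := h2.exists_left_inv
  have hθh : θ h = h := by
    have h1 : θ h * 2 = 1 := by
      have := congrArg θ hh
      rwa [map_mul, map_ofNat, map_one] at this
    calc θ h = θ h * (h * 2) := by rw [hh, mul_one]
      _ = (θ h * 2) * h := by ring
      _ = h := by rw [h1, one_mul]
  have hθt : θ t = -t := by
    have h1 : -s * θ t = 1 := by rw [← hs, ← map_mul, hst, map_one]
    calc θ t = (s * t) * θ t := by rw [hst, one_mul]
      _ = -(t * (-s * θ t)) := by ring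
      _ = -t := by rw [h1, mul_one]
  have hkey : (M.comap φ).map φ = M := by
    apply le_antisymm Ideal.map_comap_le
    intro m hm
    have e : m = h * (m + θ m) + s * (t * (h * (m - θ m))) := by
      calc m = (h * 2) * m := by rw [hh, one_mul]
        _ = h * (m + θ m) + 1 * (h * (m - θ m)) := by ring
        _ = _ := by rw [← hst]; ring
    have m1 : h * (m + θ m) ∈ (M.comap φ).map φ := by
      obtain ⟨b, hb⟩ := hfix (h * (m + θ m)) (by rw [map_mul, map_add, hθθ, hθh, add_comm])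
      rw [← hb]
      apply Ideal.mem_map_of_mem
      rw [Ideal.mem_comap, hb]
      exact M.mul_mem_left _ (M.add_mem hm (hmem m hm))
    have m2 : t * (h * (m - θ m)) ∈ (M.comap φ).map φ := by
      obtain ⟨b, hb⟩ := hfix (t * (h * (m - θ m))) (by
        rw [map_mul, map_mul, map_sub, hθθ, hθh, hθt]; ring)
      rw [← hb]
      apply Ideal.mem_map_of_mem
      rw [Ideal.mem_comap, hb]
      exact M.mul_mem_left _ (M.mul_mem_left _ (M.sub_mem hm (hmem m hm)))
    rw [e]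
    exact Ideal.add_mem _ m1 (Ideal.mul_mem_left _ _ m2)
  have hN : M.comap φ ≠ ⊥ := by
    intro h'
    rw [h', Ideal.map_bot] at hkey
    exact hM0 hkey.symm
  refine ⟨cl (M.comap φ), ?_⟩
  rw [clm_cl φ hφ hN, hkey, hM, cl_mul hI hIθ]
  congr 1
  exact (clm_cl (θ : A →+* A) θ.injective hI).symm

theorem sq_of {G : Type} [CommGroup G] {x a b p q : G} (h1 : p = x * a) (h2 : q = x * b)
    (h3 : b = a⁻¹) : x ^ 2 = p * q := by
  rw [h1, h2, h3, mul_mul_mul_comm, mul_inv_cancel, mul_one, pow_two]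

section gen
variable {K L : Type} [Field K] [Field L] {f : K[X]} {g : L[X]}

/-- the homomorphism given by `ψ` on the polynomials and `y ↦ z y` -/
noncomputable def gen (ψ : K[X] →+* L[X]) (z : L) (h : ψ f = C (z ^ 2) * g) : CR 2 f →+* CR 2 g :=
  AdjoinRoot.lift ((algebraMap L[X] (CR 2 g)).comp ψ) (algebraMap L[X] (CR 2 g) (C z) * yy 2 g) (by
    rw [eval₂_sub, eval₂_pow, eval₂_X, eval₂_C, mul_pow, yy_pow two_pos, RingHom.comp_apply, h,
      map_mul, ← map_pow, ← C_pow, sub_self])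

variable {ψ : K[X] →+* L[X]} {z : L} (h : ψ f = C (z ^ 2) * g)

lemma gen_alg (p : K[X]) :
    gen ψ z h (algebraMap K[X] (CR 2 f) p) = algebraMap L[X] (CR 2 g) (ψ p) :=
  AdjoinRoot.lift_of _

lemma gen_yy : gen ψ z h (yy 2 f) = algebraMap L[X] (CR 2 g) (C z) * yy 2 g :=
  AdjoinRoot.lift_root _

lemma cf_gen (a : CR 2 f) (j : Fin 2) :
    cf two_pos j (gen ψ z h a) = C (z ^ (j : ℕ)) * ψ (cf two_pos j a) := by
  conv_lhs => rw [← sum_cf two_pos a, map_sum]
  have h1 : ∀ i : Fin 2, gen ψ z h (cf two_pos i a • yy 2 f ^ (i : ℕ)) =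
      (C (z ^ (i : ℕ)) * ψ (cf two_pos i a)) • yy 2 g ^ (i : ℕ) := by
    intro i
    rw [Algebra.smul_def, map_mul, gen_alg, map_pow, gen_yy, mul_pow, ← map_pow, ← C_pow,
      Algebra.smul_def, map_mul]
    ring
  rw [Finset.sum_congr rfl fun i _ => h1 i, cf_sum]

lemma gen_inj (hψ : Function.Injective ψ) (hz : z ≠ 0) : Function.Injective (gen ψ z h) := by
  intro a b hab
  apply ext_cf two_pos
  intro j
  have h1 := congrArg (cf two_pos j) hab
  rw [cf_gen, cf_gen] at h1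
  exact hψ (mul_left_cancel₀ (C_ne_zero.2 (pow_ne_zero _ hz)) h1)

end gen

/-- an involution as an equivalence -/
def invE {A : Type} [CommRing A] (θ : A →+* A) (h : ∀ x, θ (θ x) = x) : A ≃+* A :=
  RingEquiv.ofRingHom θ θ (RingHom.ext h) (RingHom.ext h)

lemma sC_inv {n : ℕ} {F : Type} [Field F] (D : Dat 2 n F) (c : ClassGroup D.A) :
    D.sC c = c⁻¹ := by
  have h := D.prod_sC c
  rw [Finset.prod_range_succ, Finset.prod_range_one] at h
  simp only [Function.iterate_zero, id, Function.iterate_one] at h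
  exact eq_inv_of_mul_eq_one_right h

lemma descend {K L : Type} [Field K] [Field L] [Algebra K L] (σ : L ≃ₐ[K] L)
    (hσ : ∀ x, σ x = x → ∃ y, algebraMap K L y = x) (p : L[X])
    (hp : p.map (σ : L →+* L) = p) : ∃ q : K[X], q.map (algebraMap K L) = p := by
  have h : p ∈ lifts (algebraMap K L) := by
    rw [lifts_iff_coeff_lifts]
    intro n
    apply hσ
    have := congrArg (fun q => q.coeff n) hp
    simp only [coeff_map] at this
    exact this
  exact (mem_lifts p).1 h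

/-- JOB GT-DSQ -/
theorem t_DSQ (hG : S_GEN) : S_DSQ := by
  intro n K L _ _ _ D σ hfix hσσ s c hc hs hσs
  have hs0 : s ≠ 0 := by
    rintro rfl
    rw [zero_pow two_ne_zero] at hs
    exact hc ((_root_.map_eq_zero (algebraMap K L)).1 hs.symm)
  have hσC : ∀ p : K[X], (p.map (algebraMap K L)).map (σ : L →+* L) = p.map (algebraMap K L) := by
    intro p
    rw [Polynomial.map_map]
    congr 1
    ext x
    exact σ.commutes x
  have hσσp : ∀ p : L[X], (p.map (σ : L →+* L)).map (σ : L →+* L) = p := by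
    intro p
    rw [Polynomial.map_map]
    have : (σ : L →+* L).comp (σ : L →+* L) = RingHom.id L := RingHom.ext fun x => hσσ x
    rw [this, Polynomial.map_id]
  have hf : (D.base L).f.map (σ : L →+* L) = (D.base L).f := by
    rw [D.f_base, hσC]
  have hf1 : mapRingHom (σ : L →+* L) (D.base L).f = C ((1 : L) ^ 2) * (D.base L).f := by
    rw [coe_mapRingHom, hf, one_pow, C_1, one_mul]
  have hf2 : mapRingHom (σ : L →+* L) (D.base L).f = C ((-1 : L) ^ 2) * (D.base L).f := by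
    rw [coe_mapRingHom, hf, neg_one_sq, C_1, one_mul]
  have hf3 : mapRingHom (algebraMap K L) D.f = C ((1 : L) ^ 2) * (D.base L).f := by
    rw [coe_mapRingHom, D.f_base, one_pow, C_1, one_mul]
  have hf4 : mapRingHom (algebraMap K L) (tws D hc).f = C (s ^ 2) * (D.base L).f := by
    rw [coe_mapRingHom, D.f_base, hs]
    unfold Dat.f tws
    simp only [Polynomial.map_mul, map_C, C_mul, map_mul, mul_assoc]
  obtain ⟨θ₁, hθ₁⟩ : ∃ θ, θ = gen (mapRingHom (σ : L →+* L)) 1 hf1 := ⟨_, rfl⟩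
  obtain ⟨θ₂, hθ₂⟩ : ∃ θ, θ = gen (mapRingHom (σ : L →+* L)) (-1) hf2 := ⟨_, rfl⟩
  obtain ⟨φ₁, hφ₁⟩ : ∃ φ, φ = gen (mapRingHom (algebraMap K L)) 1 hf3 := ⟨_, rfl⟩
  obtain ⟨φ₂, hφ₂⟩ : ∃ φ, φ = gen (mapRingHom (algebraMap K L)) s hf4 := ⟨_, rfl⟩
  have cθ₁ : ∀ a j, cf two_pos j (θ₁ a) = (cf two_pos j a).map (σ : L →+* L) := by
    intro a j
    rw [hθ₁, cf_gen, one_pow, C_1, one_mul, coe_mapRingHom]
  have cθ₂ : ∀ a (j : Fin 2), cf two_pos j (θ₂ a) =
      C ((-1) ^ (j : ℕ)) * (cf two_pos j a).map (σ : L →+* L) := by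
    intro a j
    rw [hθ₂, cf_gen, coe_mapRingHom]
  have cφ₁ : ∀ a j, cf two_pos j (φ₁ a) = (cf two_pos j a).map (algebraMap K L) := by
    intro a j
    rw [hφ₁, cf_gen, one_pow, C_1, one_mul, coe_mapRingHom]
  have cφ₂ : ∀ a (j : Fin 2), cf two_pos j (φ₂ a) =
      C (s ^ (j : ℕ)) * (cf two_pos j a).map (algebraMap K L) := by
    intro a j
    rw [hφ₂, cf_gen, coe_mapRingHom]
  have hmi : Function.Injective (mapRingHom (algebraMap K L)) := by
    rw [coe_mapRingHom]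
    exact Polynomial.map_injective _ (algebraMap K L).injective
  have iφ₁ : Function.Injective φ₁ := by
    rw [hφ₁]; exact gen_inj hf3 hmi one_ne_zero
  have iφ₂ : Function.Injective φ₂ := by
    rw [hφ₂]; exact gen_inj hf4 hmi hs0
  have iiθ₁ : ∀ x, θ₁ (θ₁ x) = x := by
    intro x
    apply ext_cf two_pos
    intro j
    rw [cθ₁, cθ₁, hσσp]
  have iiθ₂ : ∀ x, θ₂ (θ₂ x) = x := by
    intro x
    apply ext_cf two_pos
    intro j
    rw [cθ₂, cθ₂, Polynomial.map_mul, hσσp, map_C, ← mul_assoc, ← C_mul]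
    have : (-1 : L) ^ (j : ℕ) * (σ : L →+* L) ((-1) ^ (j : ℕ)) = 1 := by
      rw [map_pow, map_neg, map_one, ← mul_pow]
      norm_num
    rw [this, C_1, one_mul]
  have fθ₁ : ∀ b, θ₁ (φ₁ b) = φ₁ b := by
    intro b
    apply ext_cf two_pos
    intro j
    rw [cθ₁, cφ₁, hσC]
  have fθ₂ : ∀ b, θ₂ (φ₂ b) = φ₂ b := by
    intro b
    apply ext_cf two_pos
    intro j
    rw [cθ₂, cφ₂, Polynomial.map_mul, hσC, map_C, ← mul_assoc, ← C_mul]
    have : (-1 : L) ^ (j : ℕ) * (σ : L →+* L) (s ^ (j : ℕ)) = s ^ (j : ℕ) := by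
      rw [map_pow]
      show (-1 : L) ^ (j : ℕ) * (σ s) ^ (j : ℕ) = _
      rw [hσs, ← mul_pow]
      congr 1
      ring
    rw [this]
  have xθ₁ : ∀ x, θ₁ x = x → ∃ b, φ₁ b = x := by
    intro x hx
    have h1 : ∀ j, ∃ q : K[X], q.map (algebraMap K L) = cf two_pos j x := by
      intro j
      apply descend σ hfix
      rw [← cθ₁, hx]
    choose q hq using h1
    refine ⟨∑ j : Fin 2, q j • yy 2 D.f ^ (j : ℕ), ?_⟩
    apply ext_cf two_pos
    intro j
    rw [cφ₁, cf_sum, hq]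
  have xθ₂ : ∀ x, θ₂ x = x → ∃ b, φ₂ b = x := by
    intro x hx
    have h1 : ∀ j : Fin 2, ∃ q : K[X], q.map (algebraMap K L) =
        C ((s⁻¹) ^ (j : ℕ)) * cf two_pos j x := by
      intro j
      apply descend σ hfix
      have h2 := cθ₂ x j
      rw [hx] at h2
      have h3 : (σ : L →+* L) ((s⁻¹) ^ (j : ℕ)) = (s⁻¹) ^ (j : ℕ) * (-1) ^ (j : ℕ) := by
        rw [map_pow]
        show (σ s⁻¹) ^ (j : ℕ) = _
        rw [map_inv₀, hσs, ← mul_pow]
        congr 1
        rw [inv_neg]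
        ring
      rw [Polynomial.map_mul, map_C, h3, C_mul, mul_assoc, ← h2]
    choose q hq using h1
    refine ⟨∑ j : Fin 2, q j • yy 2 (tws D hc).f ^ (j : ℕ), ?_⟩
    apply ext_cf two_pos
    intro j
    rw [cφ₂, cf_sum, hq, ← mul_assoc, ← C_mul, ← mul_pow, mul_inv_cancel₀ hs0, one_pow, C_1, one_mul]
  have st : algebraMap L[X] (D.base L).A (C s) * algebraMap L[X] (D.base L).A (C s⁻¹) = 1 := by
    rw [← map_mul, ← C_mul, mul_inv_cancel₀ hs0, C_1, map_one]
  have ts : ∀ θ : (D.base L).A →+* (D.base L).A,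
      (∀ p : L[X], θ (algebraMap L[X] (D.base L).A p) =
        algebraMap L[X] (D.base L).A (p.map (σ : L →+* L))) →
      θ (algebraMap L[X] (D.base L).A (C s)) = -algebraMap L[X] (D.base L).A (C s) := by
    intro θ h
    rw [h, map_C]
    show algebraMap L[X] (D.base L).A (C (σ s)) = _
    rw [hσs, C_neg, map_neg]
  have h2 : IsUnit (2 : (D.base L).A) := by
    have h3 : (2 : L) ≠ 0 := by
      have := (D.base L).hne
      exact_mod_cast this
    refine IsUnit.of_mul_eq_one (algebraMap L[X] (D.base L).A (C (2 : L)⁻¹)) ?_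
    have h4 : (2 : (D.base L).A) = algebraMap L[X] (D.base L).A (C (2 : L)) := by
      rw [C_ofNat, map_ofNat]
    rw [h4, ← map_mul, ← C_mul, mul_inv_cancel₀ h3, C_1, map_one]
  refine ⟨clm φ₁ iφ₁, clm φ₂ iφ₂, fun x => ?_⟩
  obtain ⟨u, hu⟩ := hG (D.base L).A D.A φ₁ iφ₁ (invE θ₁ iiθ₁) iiθ₁ fθ₁ xθ₁ _ _ st
    (ts θ₁ fun p => by rw [hθ₁]; exact gen_alg hf1 p) h2 x
  obtain ⟨v, hv⟩ := hG (D.base L).A (tws D hc).A φ₂ iφ₂ (invE θ₂ iiθ₂) iiθ₂ fθ₂ xθ₂ _ _ st
    (ts θ₂ fun p => by rw [hθ₂]; exact gen_alg hf2 p) h2 x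
  refine ⟨u, v, ?_⟩
  have hζ : (D.base L).ζ = -1 := (D.base L).hζ.eq_neg_one_of_two_right
  have hcomp : (invE θ₂ iiθ₂ : (D.base L).A →+* (D.base L).A) =
      (invE θ₁ iiθ₁ : (D.base L).A →+* (D.base L).A).comp
        ((D.base L).s 1 : (D.base L).A →+* (D.base L).A) := by
    refine RingHom.ext fun a => ?_
    show θ₂ a = θ₁ ((D.base L).s 1 a)
    apply ext_cf two_pos
    intro j
    have h5 : cf two_pos j ((D.base L).s 1 a) = C ((-1 : L) ^ (j : ℕ)) * cf two_pos j a := by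
      have := (D.base L).c_s 1 a j
      rw [hζ, one_mul] at this
      exact this
    have h8 : (σ : L →+* L) ((-1) ^ (j : ℕ)) = (-1) ^ (j : ℕ) := by rw [map_pow, map_neg, map_one]
    rw [cθ₂, cθ₁, h5, Polynomial.map_mul, map_C, h8]
  have hkey : clm (invE θ₂ iiθ₂ : (D.base L).A →+* (D.base L).A) (invE θ₂ iiθ₂).injective x =
      (clm (invE θ₁ iiθ₁ : (D.base L).A →+* (D.base L).A) (invE θ₁ iiθ₁).injective x)⁻¹ := by
    have h6 := clm_comp ((D.base L).s 1 : (D.base L).A →+* (D.base L).A) ((D.base L).s 1).injective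
      (invE θ₁ iiθ₁ : (D.base L).A →+* (D.base L).A) (invE θ₁ iiθ₁).injective x
    have h7 := clm_congr (invE θ₂ iiθ₂).injective hcomp x
    refine h7.trans (h6.symm.trans ?_)
    refine (congrArg _ (sC_inv (D.base L) x)).trans ?_
    exact map_inv _ x
  exact sq_of hu hv hkey

end Pool.Agent.Q299.GT
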